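import Pool.Agent.Q257.IRT.Std

/-!
The principle `IRT_DED` (edge-disjoint double rays in digraphs) does not follow from any of the
four principles `IRT_XYS` for rays over `RCA₀`, and not over `RCA₀` with `Σ¹₁` induction.
-/

set_option autoImplicit false

namespace Pool.Agent.Results.MP_87773f_lc.DirectedDoubleRays

open Pool.Agent.Helper317.SOA Pool.Agent.Q257.IR

/-- Formulas without set quantifiers. -/
def Arith : Fm → Prop
  | .eq _ _ => True
  | .lt _ _ => True
  | .mem _ _ => True
  | .neg φ => Arith φ
  | .and φ ψ => Arith φ ∧ Arith ψ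
  | .all _ φ => Arith φ
  | .allS _ _ => False

/-- `Σ¹₁` formulas: one existential set quantifier in front of a formula without set quantifiers. -/
def IsSigma11 (φ : Fm) : Prop := ∃ i ψ, φ = exS i ψ ∧ Arith ψ

/-- The induction scheme for the formulas in the class `C`, with number and set parameters. -/
def Ind (C : Fm → Prop) (M : Model) : Prop :=
  ∀ φ, C φ → ∀ (i : ℕ) (v : ℕ → M.Num) (V : ℕ → Set M.Num), M.SetAsg V →
    Sat M (Function.update v i M.zero) V φ →
    (∀ a, Sat M (Function.update v i a) V φ →
      Sat M (Function.update v i (M.add a M.one)) V φ) →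
    ∀ a, Sat M (Function.update v i a) V φ

/-- The full comprehension scheme, with number and set parameters. -/
def Comp (M : Model) : Prop :=
  ∀ (φ : Fm) (i : ℕ) (v : ℕ → M.Num) (V : ℕ → Set M.Num), M.SetAsg V →
    {a | Sat M (Function.update v i a) V φ} ∈ M.sets

/-- The sentence `φ` is true in the structure `M`. -/
def True_ (M : Model) (φ : Fm) : Prop :=
  ∀ (v : ℕ → M.Num) (V : ℕ → Set M.Num), M.SetAsg V → Sat M v V φ

/-- The sentence `ψ` is true in all models of the theory `T` in which the sentence `φ` is true; by
the completeness theorem this means that `T + φ` proves `ψ`. -/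
def Implies (T : Model → Prop) (φ ψ : Fm) : Prop :=
  ∀ M : Model, T M → True_ M φ → True_ M ψ

theorem result :
    -- the sentences `irt dir edge dbl` express the principles
    (∀ (M : Model) (v : ℕ → M.Num) (V : ℕ → Set M.Num) (dir edge dbl : Bool),
      Sat M v V (irt dir edge dbl) ↔ IRT M dir edge dbl) ∧
    -- the non-implications over `RCA₀`
    (∀ dir edge : Bool, ¬ Implies RCA0 (irt dir edge false) (irt true true true)) ∧
    -- the non-implications over `RCA₀` with `Σ¹₁` induction
    (∀ dir edge : Bool, ¬ Implies (fun M => RCA0 M ∧ Ind IsSigma11 M)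
      (irt dir edge false) (irt true true true)) ∧
    -- one model for all, with full induction and full comprehension
    ∃ M : Model, RCA0 M ∧ Ind (fun _ => True) M ∧ Comp M ∧
      (∀ dir edge : Bool, True_ M (irt dir edge false)) ∧ ¬ True_ M (irt true true true) := by
  have hset : Std.SetAsg fun _ => Set.univ := fun _ => Set.mem_univ _
  have h1 : ∀ dir edge : Bool, True_ Std (irt dir edge false) := fun dir edge v V _ =>
    (sat_irt Std v V dir edge false).2 (irt_single dir edge)
  have h2 : ¬ True_ Std (irt true true true) := fun h =>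
    not_irt_double ((sat_irt Std (fun _ => (0 : ℕ)) (fun _ => Set.univ) true true true).1
      (h _ _ hset))
  refine ⟨sat_irt, fun dir edge h => h2 (h Std rca0_std (h1 dir edge)),
    fun dir edge h => h2 (h Std ⟨rca0_std, fun φ _ i v V _ => ind_std φ i v V⟩ (h1 dir edge)),
    Std, rca0_std, fun φ _ i v V _ => ind_std φ i v V, fun _ _ _ _ _ => Set.mem_univ _, h1, h2⟩

end Pool.Agent.Results.MP_87773f_lc.DirectedDoubleRays
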